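import Pool.Agent.Q206.QW.Main

/-!
# Separable versus general modified De Palma–Trevisan Wasserstein distance

The modified separable cost can exceed the modified general cost by an arbitrarily large factor.
-/

open Matrix

namespace Pool.Agent.Results.MP_9a8b60_mp.SeparableExceedsGeneral

open Pool.Agent.Q206.QW

/-- **Theorem** (negative answer to Q1; `C = 1`). For every `C > 0` there are two Hermitian, in fact
real symmetric, `4 × 4` matrices `H₀, H₁` and two real density matrices `ρ, σ` on `ℂ⁴` with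
`C * Wmod H ρ σ < Wsepmod H ρ σ`. -/
theorem result (C : ℝ) (hC : 0 < C) : ∃ (H : Fin 2 → Matrix (Fin 4) (Fin 4) ℂ)
    (ρ σ : Matrix (Fin 4) (Fin 4) ℂ), (∀ m, (H m).IsHermitian ∧ (H m)ᵀ = H m) ∧
      IsState ρ ∧ IsState σ ∧ ρᵀ = ρ ∧ σᵀ = σ ∧ C * Wmod H ρ σ < Wsepmod H ρ σ :=
  main C hC

end Pool.Agent.Results.MP_9a8b60_mp.SeparableExceedsGeneral
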